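import Mathlib

namespace Pool.Agent.V11250.GenMod

/-- An algebraic signature: function symbols with arities (constants are of arity `0`); there are
no relation symbols besides equality. -/
structure Sig where
  F : Type
  ar : F → ℕ

/-- Terms in the variables `x₀, …, x_{n-1}`. -/
inductive Tm (S : Sig) (n : ℕ) : Type
  | var (i : Fin n) : Tm S n
  | app (f : S.F) (a : Fin (S.ar f) → Tm S n) : Tm S n

/-- Simultaneous substitution in terms. -/
def Tm.sub {S : Sig} {n m : ℕ} (σ : Fin n → Tm S m) : Tm S n → Tm S m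
  | .var i => σ i
  | .app f a => .app f fun i => (a i).sub σ

/-- The substitution `σ` carried under a quantifier; the bound variable is `x₀`. -/
def up {S : Sig} {n m : ℕ} (σ : Fin n → Tm S m) : Fin (n + 1) → Tm S (m + 1) :=
  Fin.cases (.var 0) fun i => (σ i).sub fun j => .var j.succ

/-- Formulas with free variables among `x₀, …, x_{n-1}`: first-order logic with equality and
disjunctions indexed by arbitrary small sets `I : Type`. Under a quantifier the new variable is
`x₀` and the old variables are shifted by one. -/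
inductive Fm (S : Sig) : ℕ → Type 1
  | eq {n : ℕ} (s t : Tm S n) : Fm S n
  | top {n : ℕ} : Fm S n
  | and {n : ℕ} (φ ψ : Fm S n) : Fm S n
  | or {n : ℕ} (I : Type) (f : I → Fm S n) : Fm S n
  | imp {n : ℕ} (φ ψ : Fm S n) : Fm S n
  | all {n : ℕ} (φ : Fm S (n + 1)) : Fm S n
  | ex {n : ℕ} (φ : Fm S (n + 1)) : Fm S n

/-- Substitution in formulas. -/
def Fm.sub {S : Sig} : {n : ℕ} → Fm S n → {m : ℕ} → (Fin n → Tm S m) → Fm S m
  | _, .eq s t, _, σ => .eq (s.sub σ) (t.sub σ)
  | _, .top, _, _ => .top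
  | _, .and φ ψ, _, σ => .and (φ.sub σ) (ψ.sub σ)
  | _, .or I f, _, σ => .or I fun i => (f i).sub σ
  | _, .imp φ ψ, _, σ => .imp (φ.sub σ) (ψ.sub σ)
  | _, .all φ, _, σ => .all (φ.sub (up σ))
  | _, .ex φ, _, σ => .ex (φ.sub (up σ))

/-- Weakening by a new variable `x₀`. -/
def Fm.shift {S : Sig} {n : ℕ} (φ : Fm S n) : Fm S (n + 1) := φ.sub fun i => .var i.succ

/-- `φ` with the term `t` substituted for the variable `x₀`. -/
def Fm.inst {S : Sig} {n : ℕ} (φ : Fm S (n + 1)) (t : Tm S n) : Fm S n :=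
  φ.sub (Fin.cases t fun i => .var i)

/-- falsity, the empty disjunction -/
def Fm.bot {S : Sig} {n : ℕ} : Fm S n := .or Empty Empty.elim

/-- binary disjunction -/
def Fm.or2 {S : Sig} {n : ℕ} (φ ψ : Fm S n) : Fm S n := .or Bool fun b => if b then φ else ψ

/-- negation -/
def Fm.neg {S : Sig} {n : ℕ} (φ : Fm S n) : Fm S n := .imp φ .bot

/-- Universal closure. -/
def alls {S : Sig} : (n : ℕ) → Fm S n → Fm S 0
  | 0, φ => φ
  | n + 1, φ => alls n (.all φ)

/-- Intuitionistic derivability of the sequent `φ ⊢ ψ` in the variables `x₀, …, x_{n-1}`, from a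
set `T` of sentences: the sequent calculus of categorical logic. -/
inductive Seq {S : Sig} (T : Set (Fm S 0)) : (n : ℕ) → Fm S n → Fm S n → Prop
  | ax {α : Fm S 0} : α ∈ T → Seq T 0 .top α
  | id {n : ℕ} (φ : Fm S n) : Seq T n φ φ
  | cut {n : ℕ} {φ ψ χ : Fm S n} : Seq T n φ ψ → Seq T n ψ χ → Seq T n φ χ
  | sub {n m : ℕ} {φ ψ : Fm S n} (σ : Fin n → Tm S m) :
      Seq T n φ ψ → Seq T m (φ.sub σ) (ψ.sub σ)
  | refl {n : ℕ} (t : Tm S n) : Seq T n .top (.eq t t)
  | leib {n : ℕ} (s t : Tm S n) (φ : Fm S (n + 1)) :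
      Seq T n (.and (.eq s t) (φ.inst s)) (φ.inst t)
  | topI {n : ℕ} (φ : Fm S n) : Seq T n φ .top
  | andI {n : ℕ} {χ φ ψ : Fm S n} : Seq T n χ φ → Seq T n χ ψ → Seq T n χ (.and φ ψ)
  | andL {n : ℕ} (φ ψ : Fm S n) : Seq T n (.and φ ψ) φ
  | andR {n : ℕ} (φ ψ : Fm S n) : Seq T n (.and φ ψ) ψ
  | orI {n : ℕ} (I : Type) (f : I → Fm S n) (i : I) : Seq T n (f i) (.or I f)
  | orE {n : ℕ} {I : Type} {f : I → Fm S n} {χ : Fm S n} :
      (∀ i, Seq T n (f i) χ) → Seq T n (.or I f) χ
  | impI {n : ℕ} {χ φ ψ : Fm S n} : Seq T n (.and χ φ) ψ → Seq T n χ (.imp φ ψ)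
  | impE {n : ℕ} {χ φ ψ : Fm S n} : Seq T n χ (.imp φ ψ) → Seq T n (.and χ φ) ψ
  | allI {n : ℕ} {χ : Fm S n} {φ : Fm S (n + 1)} :
      Seq T (n + 1) χ.shift φ → Seq T n χ (.all φ)
  | allE {n : ℕ} {χ : Fm S n} {φ : Fm S (n + 1)} :
      Seq T n χ (.all φ) → Seq T (n + 1) χ.shift φ
  | exI {n : ℕ} {χ : Fm S n} {φ : Fm S (n + 1)} :
      Seq T n (.ex φ) χ → Seq T (n + 1) φ χ.shift
  | exE {n : ℕ} {χ : Fm S n} {φ : Fm S (n + 1)} :
      Seq T (n + 1) φ χ.shift → Seq T n (.ex φ) χ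

/-- `T ⊢ θ` for a sentence `θ`. -/
def Prov {S : Sig} (T : Set (Fm S 0)) (θ : Fm S 0) : Prop := Seq T 0 .top θ

/-- Geometric formulas: no implication and no universal quantifier. -/
def Fm.IsGeo {S : Sig} : {n : ℕ} → Fm S n → Prop
  | _, .eq _ _ => True
  | _, .top => True
  | _, .and φ ψ => φ.IsGeo ∧ ψ.IsGeo
  | _, .or _ f => ∀ i, (f i).IsGeo
  | _, .imp _ _ => False
  | _, .all _ => False
  | _, .ex φ => φ.IsGeo

/-- A set of equations, each in its own context. -/
abbrev Eqns (S : Sig) := Set (Σ n : ℕ, Tm S n × Tm S n)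

/-- The algebraic theory with equations `E`: the universal closures of the equations. -/
def theory {S : Sig} (E : Eqns S) : Set (Fm S 0) :=
  {θ | ∃ e ∈ E, θ = alls e.1 (.eq e.2.1 e.2.2)}

/-- `α` is `T`-redundant: `T + α` proves no new geometric implication. -/
def Redundant {S : Sig} (T : Set (Fm S 0)) (α : Fm S 0) : Prop :=
  ∀ (n : ℕ) (φ ψ : Fm S n), φ.IsGeo → ψ.IsGeo →
    Prov (insert α T) (alls n (.imp φ ψ)) → Prov T (alls n (.imp φ ψ))

/-- An algebra for the signature. -/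
structure Alg (S : Sig) where
  C : Type
  op : (f : S.F) → (Fin (S.ar f) → C) → C

/-- The value of a term. -/
def Alg.val {S : Sig} (A : Alg S) {n : ℕ} (v : Fin n → A.C) : Tm S n → A.C
  | .var i => v i
  | .app f a => A.op f fun i => A.val v (a i)

/-- `h` is a homomorphism. -/
def IsHom {S : Sig} (A B : Alg S) (h : A.C → B.C) : Prop :=
  ∀ (f : S.F) (a : Fin (S.ar f) → A.C), h (A.op f a) = B.op f fun i => h (a i)

/-- `A` satisfies the equations `E`. -/
def Alg.Model {S : Sig} (E : Eqns S) (A : Alg S) : Prop :=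
  ∀ e ∈ E, ∀ v : Fin e.1 → A.C, A.val v e.2.1 = A.val v e.2.2

/-- `A` is a finitely presented model of `E`: generated by finitely many `g i` subject to finitely
many relations `R`, with the universal property. -/
def FP {S : Sig} (E : Eqns S) (A : Alg S) : Prop :=
  A.Model E ∧ ∃ (k : ℕ) (g : Fin k → A.C) (R : Finset (Tm S k × Tm S k)),
    (∀ r ∈ R, A.val g r.1 = A.val g r.2) ∧
    ∀ B : Alg S, B.Model E → ∀ b : Fin k → B.C, (∀ r ∈ R, B.val b r.1 = B.val b r.2) →
      ∃! h : A.C → B.C, IsHom A B h ∧ ∀ i, h (g i) = b i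

/-- The Kripke-Joyal semantics of the generic model: truth of a formula at stage `A` and elements
`v` of `A` in the topos of functors from finitely presented models of `E` to sets, for the
forgetful functor. -/
def Forces {S : Sig} (E : Eqns S) : {n : ℕ} → Fm S n → (A : Alg S) → (Fin n → A.C) → Prop
  | _, .eq s t, A, v => A.val v s = A.val v t
  | _, .top, _, _ => True
  | _, .and φ ψ, A, v => Forces E φ A v ∧ Forces E ψ A v
  | _, .or _ f, A, v => ∃ i, Forces E (f i) A v
  | _, .imp φ ψ, A, v => ∀ B : Alg S, FP E B → ∀ h : A.C → B.C, IsHom A B h →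
      Forces E φ B (fun i => h (v i)) → Forces E ψ B (fun i => h (v i))
  | n, .all φ, A, v => ∀ B : Alg S, FP E B → ∀ h : A.C → B.C, IsHom A B h → ∀ b : B.C,
      Forces E φ B (Fin.cases b fun i => h (v i))
  | n, .ex φ, A, v => ∃ a : A.C, Forces E φ A (Fin.cases a v)

/-- The sentence `α` is true in the generic model of the theory with equations `E`. -/
def TrueInGeneric {S : Sig} (E : Eqns S) (α : Fm S 0) : Prop :=
  ∀ A : Alg S, FP E A → Forces E α A Fin.elim0

/-- Decidability of equality: `∀ x y, x = y ∨ ¬ x = y`. -/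
def decEq (S : Sig) : Fm S 0 :=
  .all (.all (.or2 (.eq (.var 1) (.var 0)) (.neg (.eq (.var 1) (.var 0)))))

/-- The signature without symbols. -/
def emptySig : Sig := ⟨Empty, Empty.elim⟩

end Pool.Agent.V11250.GenMod
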