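import Pool.Agent.V11250.GenMod.Sem

namespace Pool.Agent.V11250.GenMod

variable {S : Sig}

theorem val_hom {A B : Alg S} {h : A.C → B.C} (hh : IsHom A B h) {n : ℕ} (v : Fin n → A.C)
    (t : Tm S n) : h (A.val v t) = B.val (fun i => h (v i)) t := by
  induction t with
  | var i => rfl
  | app f a ih =>
    show h (A.op f _) = B.op f _
    rw [hh]
    congr 1
    funext i
    exact ih i

/-- the homomorphism from the free algebra -/
theorem exists_lift (E : Eqns S) (n : ℕ) (B : Alg S) (hB : B.Model E) (b : Fin n → B.C) :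
    ∃! h : (tAlg (theory E) n .top).C → B.C, IsHom (tAlg (theory E) n .top) B h ∧
      ∀ i, h (cls (theory E) n .top (.var i)) = b i := by
  have hs : ∀ s t : Tm S n, Seq (theory E) n .top (.eq s t) → B.val b s = B.val b t :=
    fun s t h => sound B (sat_theory hB) h b trivial
  refine ⟨Quotient.lift (s := tset (theory E) n .top) (fun t => B.val b t) hs, ⟨?_, ?_⟩, ?_⟩
  · intro f a
    obtain ⟨τ, rfl⟩ := exists_rep a
    rw [op_cls]
    rfl
  · intro i; rfl
  · rintro h' ⟨h1, h2⟩
    funext a
    obtain ⟨t, rfl⟩ : ∃ t, a = cls (theory E) n .top t := ⟨_, (cls_out a).symm⟩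
    show h' _ = B.val b t
    have h3 := val_cls (T := theory E) (γ := Fm.top) (fun i => (.var i : Tm S n)) t
    rw [Tm.sub_var] at h3
    rw [← h3, val_hom h1]
    congr 1
    funext i
    exact h2 i

theorem fp_free (E : Eqns S) (n : ℕ) : FP E (tAlg (theory E) n .top) :=
  ⟨tAlg_model E n _, n, fun i => cls (theory E) n .top (.var i), ∅, by simp,
    fun B hB b _ => exists_lift E n B hB b⟩

theorem isHom_id (A : Alg S) : IsHom A A fun a => a := fun _ _ => rfl

theorem decEq_valid (A : Alg S) : Sat A (decEq S) Fin.elim0 := by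
  classical
  intro x y
  by_cases h : x = y
  · exact ⟨true, h⟩
  · exact ⟨false, fun h' => (h h').elim⟩

/-- a stage at which two elements are different but can be identified later -/
theorem not_forces_decEq {E : Eqns S} {A B D : Alg S} (hB : FP E B) (hD : FP E D)
    (j : A.C → B.C) (hj : IsHom A B j)
    (x y : B.C) (hxy : x ≠ y) (k : B.C → D.C) (hk : IsHom B D k) (hkxy : k x = k y)
    (v : Fin 0 → A.C) : ¬ Forces E (decEq S) A v := by
  intro h
  obtain ⟨b, hb⟩ := h B hB j hj x B hB (fun a => a) (isHom_id B) y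
  cases b with
  | true => exact hxy hb
  | false =>
    have h1 := hb D hD k hk hkxy
    obtain ⟨i, _⟩ := h1
    exact i.elim

theorem not_generic {E : Eqns S} (h : ∃ B : Alg S, B.Model E ∧ ∃ x y : B.C, x ≠ y) :
    ¬ TrueInGeneric E (decEq S) := by
  intro hg
  obtain ⟨B0, hB0, x, y, hxy⟩ := h
  have h2 := fp_free E 2
  have h1 := fp_free E 1
  obtain ⟨k, ⟨hk, hk'⟩, _⟩ := exists_lift E 2 _ h1.1
    (fun _ => cls (theory E) 1 .top (.var 0))
  refine not_forces_decEq (A := tAlg (theory E) 2 .top) h2 h1 (fun a => a) (isHom_id _)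
    (cls (theory E) 2 .top (.var 0)) (cls (theory E) 2 .top (.var 1)) ?_ k hk ?_ Fin.elim0
    (hg _ h2)
  · intro he
    rw [cls_eq] at he
    have := sound B0 (sat_theory hB0) he (fun i => if i = 0 then x else y) trivial
    exact hxy this
  · rw [hk', hk']

/-! the theory of pure equality -/

theorem isHom_empty {A B : Alg emptySig} (h : A.C → B.C) : IsHom A B h := fun f => f.elim

theorem val_empty {A : Alg emptySig} {n : ℕ} (t : Tm emptySig n) :
    ∃ i, ∀ (A : Alg emptySig) (v : Fin n → A.C), A.val v t = v i := by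
  cases t with
  | var i => exact ⟨i, fun A v => rfl⟩
  | app f a => exact f.elim

/-- add two points -/
def plus2 (A : Alg emptySig) : Alg emptySig := ⟨Option (Option A.C), fun f => f.elim⟩

def sh2 {k : ℕ} (t : Tm emptySig k) : Tm emptySig (k + 2) := t.sub fun i => .var i.succ.succ

theorem fp_plus2 {A : Alg emptySig} (hA : FP (∅ : Eqns emptySig) A) :
    FP (∅ : Eqns emptySig) (plus2 A) := by
  classical
  obtain ⟨_, k, g, R, hR, hU⟩ := hA
  refine ⟨fun e he => he.elim, k + 2,
    Fin.cases none (Fin.cases (some none) fun i => some (some (g i))),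
    R.image (fun r => (sh2 r.1, sh2 r.2)), ?_, ?_⟩
  · intro r hr
    obtain ⟨r', hr', rfl⟩ := Finset.mem_image.1 hr
    obtain ⟨i, hi⟩ := val_empty (A := A) r'.1
    obtain ⟨j, hj⟩ := val_empty (A := A) r'.2
    have h1 := hR r' hr'
    rw [hi, hj] at h1
    show (plus2 A).val _ (sh2 r'.1) = (plus2 A).val _ (sh2 r'.2)
    unfold sh2
    rw [val_sub, val_sub, hi, hj]
    show some (some (g i)) = some (some (g j))
    rw [h1]
  · intro B _ b hb
    obtain ⟨h, ⟨hh, hg⟩, huniq⟩ := hU B (fun e he => he.elim) (fun i => b i.succ.succ) (by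
      intro r hr
      have := hb (sh2 r.1, sh2 r.2) (Finset.mem_image.2 ⟨r, hr, rfl⟩)
      simp only [sh2, val_sub] at this
      exact this)
    refine ⟨fun o => match o with
      | none => b 0
      | some none => b 1
      | some (some a) => h a, ⟨isHom_empty _, ?_⟩, ?_⟩
    · intro i
      refine Fin.cases rfl (fun j => ?_) i
      refine Fin.cases rfl (fun l => ?_) j
      exact hg l
    · rintro h' ⟨_, h2⟩
      funext o
      rcases o with _ | _ | a
      · exact h2 0
      · exact h2 1
      · have h3 := huniq (fun a => h' (some (some a))) ⟨isHom_empty _, fun i => h2 i.succ.succ⟩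
        exact congrFun h3 a

theorem neg_generic : TrueInGeneric (∅ : Eqns emptySig) (Fm.neg (decEq emptySig)) := by
  intro A hA B hB h hh hf
  exfalso
  refine not_forces_decEq (fp_plus2 hB) (fp_plus2 hB) (fun a => some (some a)) (isHom_empty _)
    none (some none) (by simp) (fun o => match o with
      | none => none
      | some none => none
      | some (some a) => some (some a)) (isHom_empty _) rfl _ hf

end Pool.Agent.V11250.GenMod
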