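import Pool.Agent.V11250.GenMod.Syn

namespace Pool.Agent.V11250.GenMod

variable {S : Sig}

/-- classical satisfaction -/
def Sat (A : Alg S) : {n : ℕ} → Fm S n → (Fin n → A.C) → Prop
  | _, .eq s t, v => A.val v s = A.val v t
  | _, .top, _ => True
  | _, .and φ ψ, v => Sat A φ v ∧ Sat A ψ v
  | _, .or _ f, v => ∃ i, Sat A (f i) v
  | _, .imp φ ψ, v => Sat A φ v → Sat A ψ v
  | _, .all φ, v => ∀ b, Sat A φ (Fin.cases b v)
  | _, .ex φ, v => ∃ b, Sat A φ (Fin.cases b v)

theorem val_sub (A : Alg S) {n m : ℕ} (σ : Fin n → Tm S m) (t : Tm S n) (v : Fin m → A.C) :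
    A.val v (t.sub σ) = A.val (fun i => A.val v (σ i)) t := by
  induction t with
  | var i => rfl
  | app f a ih => simp only [Tm.sub, Alg.val]; congr; funext i; exact ih i

theorem val_up (A : Alg S) {n m : ℕ} (σ : Fin n → Tm S m) (v : Fin m → A.C) (b : A.C) :
    (fun i => A.val (Fin.cases b v) (up σ i)) =
      (Fin.cases b (fun i => A.val v (σ i)) : Fin (n + 1) → A.C) := by
  funext i
  refine Fin.cases ?_ (fun j => ?_) i
  · rfl
  · show A.val _ ((σ j).sub _) = A.val v (σ j)
    rw [val_sub]; rfl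

theorem sat_sub (A : Alg S) {n : ℕ} (φ : Fm S n) : ∀ {m : ℕ} (σ : Fin n → Tm S m)
    (v : Fin m → A.C), Sat A (φ.sub σ) v ↔ Sat A φ fun i => A.val v (σ i) := by
  induction φ with
  | eq s t => intro m σ v; simp only [Fm.sub, Sat, val_sub]
  | top => intro m σ v; rfl
  | and φ ψ h1 h2 => intro m σ v; exact and_congr (h1 σ v) (h2 σ v)
  | or I f ih => intro m σ v; exact exists_congr fun i => ih i σ v
  | imp φ ψ h1 h2 => intro m σ v; exact imp_congr (h1 σ v) (h2 σ v)
  | all φ ih => intro m σ v; exact forall_congr' fun b => by rw [ih, val_up]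
  | ex φ ih => intro m σ v; exact exists_congr fun b => by rw [ih, val_up]

theorem sat_shift (A : Alg S) {n : ℕ} (φ : Fm S n) (b : A.C) (v : Fin n → A.C) :
    Sat A φ.shift (Fin.cases b v) ↔ Sat A φ v := sat_sub A φ _ _

theorem sat_inst (A : Alg S) {n : ℕ} (φ : Fm S (n + 1)) (t : Tm S n) (v : Fin n → A.C) :
    Sat A (φ.inst t) v ↔ Sat A φ (Fin.cases (A.val v t) v) := by
  unfold Fm.inst
  rw [sat_sub]
  have : (fun i => A.val v ((Fin.cases t fun i => .var i : Fin (n + 1) → Tm S n) i)) =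
      (Fin.cases (A.val v t) v : Fin (n + 1) → A.C) := by
    funext i
    refine Fin.cases ?_ (fun j => ?_) i <;> rfl
  rw [this]

theorem cases_eta {n : ℕ} {α : Type} (v : Fin (n + 1) → α) :
    (Fin.cases (v 0) (fun i => v i.succ) : Fin (n + 1) → α) = v := by
  funext i
  refine Fin.cases ?_ (fun j => ?_) i <;> rfl

theorem sound {T : Set (Fm S 0)} (A : Alg S) (hA : ∀ α ∈ T, Sat A α Fin.elim0) {n : ℕ}
    {φ ψ : Fm S n} (h : Seq T n φ ψ) : ∀ v, Sat A φ v → Sat A ψ v := by
  induction h with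
  | ax hα =>
    intro v _
    have : v = Fin.elim0 := funext fun i => i.elim0
    rw [this]; exact hA _ hα
  | id φ => intro v h; exact h
  | cut _ _ h1 h2 => intro v h; exact h2 v (h1 v h)
  | sub σ _ ih => intro v h; rw [sat_sub] at h ⊢; exact ih _ h
  | refl t => intro v _; rfl
  | leib s t φ =>
    intro v h
    have h1 : A.val v s = A.val v t := h.1
    have h2 := h.2
    rw [sat_inst] at h2 ⊢
    rwa [h1] at h2
  | topI φ => intro v _; trivial
  | andI _ _ h1 h2 => intro v h; exact ⟨h1 v h, h2 v h⟩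
  | andL φ ψ => intro v h; exact h.1
  | andR φ ψ => intro v h; exact h.2
  | orI I f i => intro v h; exact ⟨i, h⟩
  | orE _ ih => rintro v ⟨i, h⟩; exact ih i v h
  | impI _ ih => intro v h h'; exact ih v ⟨h, h'⟩
  | impE _ ih => intro v h; exact ih v h.1 h.2
  | allI _ ih => intro v h b; exact ih _ ((sat_shift A _ b v).2 h)
  | allE _ ih =>
    intro v h
    rw [← cases_eta v] at h ⊢
    exact ih _ ((sat_shift A _ _ _).1 h) _
  | exI _ ih =>
    intro v h
    rw [← cases_eta v] at h ⊢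
    exact (sat_shift A _ _ _).2 (ih _ ⟨_, h⟩)
  | exE _ ih =>
    rintro v ⟨b, h⟩
    exact (sat_shift A _ b v).1 (ih _ h)

theorem sat_alls (A : Alg S) {n : ℕ} (φ : Fm S n) :
    Sat A (alls n φ) Fin.elim0 ↔ ∀ v, Sat A φ v := by
  induction n with
  | zero =>
    constructor
    · intro h v
      have : v = Fin.elim0 := funext fun i => i.elim0
      rw [this]; exact h
    · intro h; exact h _
  | succ n ih =>
    show Sat A (alls n (.all φ)) _ ↔ _
    rw [ih]
    constructor
    · intro h v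
      have := h (fun i => v i.succ) (v 0)
      rwa [cases_eta] at this
    · intro h v b; exact h _

theorem sat_theory {E : Eqns S} {A : Alg S} (hA : A.Model E) :
    ∀ α ∈ theory E, Sat A α Fin.elim0 := by
  rintro α ⟨e, he, rfl⟩
  rw [sat_alls]
  exact fun v => hA e he v

/-! the forcing relation on contexts -/

/-- geometric forcing over the context `(n, γ)` -/
def F (T : Set (Fm S 0)) (n : ℕ) (γ : Fm S n) : {m : ℕ} → Fm S m → (Fin m → Tm S n) → Prop
  | _, .eq s t, τ => Seq T n γ (.eq (s.sub τ) (t.sub τ))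
  | _, .top, _ => True
  | _, .and φ ψ, τ => F T n γ φ τ ∧ F T n γ ψ τ
  | _, .or _ f, τ => ∃ i, F T n γ (f i) τ
  | _, .imp _ _, _ => False
  | _, .all _, _ => False
  | _, .ex φ, τ => ∃ t : Tm S n, F T n γ φ (Fin.cases t τ)

variable {T : Set (Fm S 0)}

theorem F_seq {n : ℕ} {γ : Fm S n} {m : ℕ} {φ : Fm S m} : ∀ {τ : Fin m → Tm S n},
    F T n γ φ τ → Seq T n γ (φ.sub τ) := by
  induction φ with
  | eq s t => intro τ h; exact h
  | top => intro τ _; exact .topI _
  | and φ ψ h1 h2 => intro τ h; exact .andI (h1 h.1) (h2 h.2)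
  | or I f ih => rintro τ ⟨i, h⟩; exact .cut (ih i h) (.orI I (fun i => (f i).sub τ) i)
  | imp φ ψ _ _ => intro τ h; exact h.elim
  | all φ _ => intro τ h; exact h.elim
  | ex φ ih =>
    rintro τ ⟨t, h⟩
    have h1 := ih h
    rw [← up_inst] at h1
    exact exIntro t h1

theorem cases_sub {n m k : ℕ} (σ : Fin n → Tm S k) (t : Tm S n) (τ : Fin m → Tm S n) :
    (fun i => ((Fin.cases t τ : Fin (m + 1) → Tm S n) i).sub σ) =
      (Fin.cases (t.sub σ) (fun i => (τ i).sub σ) : Fin (m + 1) → Tm S k) := by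
  funext i
  refine Fin.cases ?_ (fun j => ?_) i <;> rfl

theorem F_mono {n n' : ℕ} {γ : Fm S n} {γ' : Fm S n'} (σ : Fin n → Tm S n')
    (hσ : Seq T n' γ' (γ.sub σ)) {m : ℕ} {φ : Fm S m} : ∀ {τ : Fin m → Tm S n},
    F T n γ φ τ → F T n' γ' φ fun i => (τ i).sub σ := by
  induction φ with
  | eq s t =>
    intro τ h
    have h1 : Seq T n γ (.eq (s.sub τ) (t.sub τ)) := h
    have h2 := Seq.cut hσ (Seq.sub σ h1)
    show Seq T n' γ' (.eq (s.sub _) (t.sub _))
    rw [← Tm.sub_sub, ← Tm.sub_sub]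
    exact h2
  | top => intro τ _; trivial
  | and φ ψ h1 h2 => intro τ h; exact ⟨h1 h.1, h2 h.2⟩
  | or I f ih => rintro τ ⟨i, h⟩; exact ⟨i, ih i h⟩
  | imp φ ψ _ _ => intro τ h; exact h.elim
  | all φ _ => intro τ h; exact h.elim
  | ex φ ih =>
    rintro τ ⟨t, h⟩
    refine ⟨t.sub σ, ?_⟩
    have := ih h
    rwa [cases_sub] at this

/-- to prove `χ` from `γ` and a geometric `φ` it is enough to prove it over every extension that
forces `φ` -/
theorem F_elim {m : ℕ} {φ : Fm S m} : φ.IsGeo → ∀ {n : ℕ} {γ : Fm S n} (τ : Fin m → Tm S n)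
    {χ : Fm S n},
    (∀ (n' : ℕ) (σ : Fin n → Tm S n') (γ' : Fm S n'), Seq T n' γ' (γ.sub σ) →
      F T n' γ' φ (fun i => (τ i).sub σ) → Seq T n' γ' (χ.sub σ)) →
    Seq T n (.and γ (φ.sub τ)) χ := by
  induction φ with
  | eq s t =>
    intro _ n γ τ χ H
    have := H n (fun i => .var i) (.and γ (.eq (s.sub τ) (t.sub τ))) (by
      rw [Fm.sub_var]; exact .andL _ _) (by
      show Seq T n _ (.eq (s.sub _) (t.sub _))
      rw [← Tm.sub_sub, ← Tm.sub_sub, Tm.sub_var, Tm.sub_var]
      exact .andR _ _)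
    rwa [Fm.sub_var] at this
  | top =>
    intro _ n γ τ χ H
    have := H n (fun i => .var i) (.and γ .top) (by
      rw [Fm.sub_var]; exact .andL _ _) trivial
    rwa [Fm.sub_var] at this
  | and φ ψ ih1 ih2 =>
    intro hg n γ τ χ H
    have h1 : Seq T n (.and (.and γ (ψ.sub τ)) (φ.sub τ)) χ := by
      refine ih1 hg.1 τ ?_
      intro n' σ γ' hγ hφ
      have hγ1 : Seq T n' γ' (γ.sub σ) := .cut hγ (.andL _ _)
      have hγ2 : Seq T n' γ' ((ψ.sub τ).sub σ) := .cut hγ (.andR _ _)
      have h2 : Seq T n' (.and γ' (ψ.sub fun i => (τ i).sub σ)) (χ.sub σ) := by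
        refine ih2 hg.2 _ ?_
        intro n'' σ' γ'' hγ'' hψ
        have h3 := H n'' (fun i => (σ i).sub σ') γ'' (by
          have := Seq.cut hγ'' (Seq.sub σ' hγ1)
          rwa [Fm.sub_sub] at this) (by
          refine ⟨?_, ?_⟩
          · have := F_mono σ' hγ'' hφ
            simp only [Tm.sub_sub] at this
            exact this
          · simp only [Tm.sub_sub] at hψ
            exact hψ)
        rw [Fm.sub_sub]
        exact h3
      rw [Fm.sub_sub] at hγ2
      exact .cut (.andI (.id _) hγ2) h2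
    refine .cut (.andI (.andI (.andL _ _) ?_) ?_) h1
    · exact .cut (.andR _ _) (.andR _ _)
    · exact .cut (.andR _ _) (.andL _ _)
  | or I f ih =>
    intro hg n γ τ χ H
    have h1 : Seq T n (.or I fun i => (f i).sub τ) (.imp γ χ) := by
      refine .orE fun i => .impI ?_
      have h2 : Seq T n (.and γ ((f i).sub τ)) χ :=
        ih i (hg i) τ fun n' σ γ' hγ hf => H n' σ γ' hγ ⟨i, hf⟩
      exact .cut (.andI (.andR _ _) (.andL _ _)) h2
    exact .cut (.andI (.andR _ _) (.andL _ _)) (.impE h1)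
  | imp φ ψ _ _ => intro h; exact h.elim
  | all φ _ => intro h; exact h.elim
  | ex φ ih =>
    intro hg n γ τ χ H
    have h1 : Seq T n (.ex (φ.sub (up τ))) (.imp γ χ) := by
      refine .exE ?_
      show Seq T (n + 1) _ (.imp γ.shift χ.shift)
      refine .impI ?_
      have h2 : Seq T (n + 1) (.and γ.shift (φ.sub (up τ))) χ.shift := by
        refine ih hg (up τ) ?_
        intro n' σ γ' hγ hφ
        have h3 := H n' (fun i => σ i.succ) γ' (by
          unfold Fm.shift at hγ
          rw [Fm.sub_sub] at hγ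
          exact hγ) (by
          refine ⟨σ 0, ?_⟩
          have e : (fun i => (up τ i).sub σ) =
              (Fin.cases (σ 0) (fun i => (τ i).sub fun i => σ i.succ) :
                Fin _ → Tm S n') := by
            funext i
            refine Fin.cases ?_ (fun j => ?_) i
            · rfl
            · show ((τ j).sub _).sub σ = _
              rw [Tm.sub_sub]; rfl
          rwa [e] at hφ)
        unfold Fm.shift
        rw [Fm.sub_sub]
        exact h3
      exact .cut (.andI (.andR _ _) (.andL _ _)) h2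
    exact .cut (.andI (.andR _ _) (.andL _ _)) (.impE h1)

/-! the term algebra -/

/-- provable equality over the context `(n, γ)` -/
def tset (T : Set (Fm S 0)) (n : ℕ) (γ : Fm S n) : Setoid (Tm S n) where
  r s t := Seq T n γ (.eq s t)
  iseqv := ⟨fun t => eqRefl γ t, fun h => eqSymm h, fun h h' => eqTrans h h'⟩

/-- the term algebra over the context `(n, γ)` -/
noncomputable def tAlg (T : Set (Fm S 0)) (n : ℕ) (γ : Fm S n) : Alg S where
  C := Quotient (tset T n γ)
  op f a := Quotient.mk (tset T n γ) (.app f fun i => (a i).out)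

def cls (T : Set (Fm S 0)) (n : ℕ) (γ : Fm S n) (t : Tm S n) : (tAlg T n γ).C :=
  Quotient.mk (tset T n γ) t

theorem cls_out {n : ℕ} {γ : Fm S n} (a : (tAlg T n γ).C) :
    cls T n γ (Quotient.out (s := tset T n γ) a) = a := Quotient.out_eq (s := tset T n γ) a

theorem cls_eq {n : ℕ} {γ : Fm S n} {s t : Tm S n} :
    cls T n γ s = cls T n γ t ↔ Seq T n γ (.eq s t) := Quotient.eq (r := tset T n γ)

theorem op_cls {n : ℕ} {γ : Fm S n} (f : S.F) (a : Fin (S.ar f) → Tm S n) :
    (tAlg T n γ).op f (fun i => cls T n γ (a i)) = cls T n γ (.app f a) := by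
  show cls T n γ _ = _
  rw [cls_eq]
  refine eqCong f _ _ fun i => ?_
  rw [← cls_eq, cls_out]

theorem val_cls {n : ℕ} {γ : Fm S n} {m : ℕ} (τ : Fin m → Tm S n) (t : Tm S m) :
    (tAlg T n γ).val (fun i => cls T n γ (τ i)) t = cls T n γ (t.sub τ) := by
  induction t with
  | var i => rfl
  | app f a ih =>
    show (tAlg T n γ).op f _ = cls T n γ (.app f _)
    rw [← op_cls]
    congr 1
    funext i
    exact ih i

theorem exists_rep {n : ℕ} {γ : Fm S n} {m : ℕ} (v : Fin m → (tAlg T n γ).C) :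
    ∃ τ : Fin m → Tm S n, v = fun i => cls T n γ (τ i) :=
  ⟨fun i => Quotient.out (s := tset T n γ) (v i), funext fun i => (cls_out _).symm⟩

theorem tAlg_model (E : Eqns S) (n : ℕ) (γ : Fm S n) : (tAlg (theory E) n γ).Model E := by
  intro e he v
  obtain ⟨τ, rfl⟩ := exists_rep v
  rw [val_cls, val_cls, cls_eq]
  have h1 : Prov (theory E) (alls e.1 (.eq e.2.1 e.2.2)) := .ax ⟨e, he, rfl⟩
  have h2 := Seq.sub τ (allsElim h1)
  exact .cut (.topI _) h2

theorem cases_cls {n : ℕ} {γ : Fm S n} {m : ℕ} (τ : Fin m → Tm S n) (t : Tm S n) :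
    (Fin.cases (cls T n γ t) (fun i => cls T n γ (τ i)) : Fin (m + 1) → (tAlg T n γ).C) =
      fun i => cls T n γ ((Fin.cases t τ : Fin (m + 1) → Tm S n) i) := by
  funext i
  refine Fin.cases ?_ (fun j => ?_) i <;> rfl

theorem F_iff_sat {n : ℕ} {γ : Fm S n} {m : ℕ} {φ : Fm S m} : φ.IsGeo →
    ∀ τ : Fin m → Tm S n, F T n γ φ τ ↔ Sat (tAlg T n γ) φ fun i => cls T n γ (τ i) := by
  induction φ with
  | eq s t => intro _ τ; simp only [F, Sat, val_cls, cls_eq]
  | top => intro _ τ; rfl
  | and φ ψ h1 h2 => intro hg τ; exact and_congr (h1 hg.1 τ) (h2 hg.2 τ)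
  | or I f ih => intro hg τ; exact exists_congr fun i => ih i (hg i) τ
  | imp φ ψ _ _ => intro h; exact h.elim
  | all φ _ => intro h; exact h.elim
  | ex φ ih =>
    intro hg τ
    constructor
    · rintro ⟨t, h⟩
      refine ⟨cls T n γ t, ?_⟩
      rw [cases_cls]
      exact (ih hg _).1 h
    · rintro ⟨b, h⟩
      refine ⟨Quotient.out (s := tset T n γ) b, ?_⟩
      rw [ih hg, ← cases_cls, cls_out]
      exact h

/-- completeness for geometric implications over an algebraic theory -/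
theorem complete {E : Eqns S} {n : ℕ} {φ ψ : Fm S n} (hφ : φ.IsGeo) (hψ : ψ.IsGeo)
    (h : ∀ A : Alg S, A.Model E → ∀ v, Sat A φ v → Sat A ψ v) : Seq (theory E) n φ ψ := by
  have h1 : Seq (theory E) n (.and .top (φ.sub fun i => .var i)) ψ := by
    refine F_elim hφ _ ?_
    intro n' σ γ' _ hF
    have h2 : F (theory E) n' γ' φ σ := hF
    rw [F_iff_sat hφ] at h2
    have h3 := h _ (tAlg_model E n' γ') _ h2
    rw [← F_iff_sat hψ] at h3
    exact F_seq h3
  rw [Fm.sub_var] at h1
  exact .cut (.andI (.topI _) (.id _)) h1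

/-- classically valid sentences are redundant -/
theorem redundant_of_valid (E : Eqns S) (α : Fm S 0) (hα : ∀ A : Alg S, Sat A α Fin.elim0) :
    Redundant (theory E) α := by
  intro n φ ψ hφ hψ h
  apply allsIntro
  refine .impI ?_
  refine .cut (.andR _ _) ?_
  refine complete hφ hψ ?_
  intro A hA v hv
  have h1 : ∀ β ∈ insert α (theory E), Sat A β Fin.elim0 := by
    rintro β (rfl | hβ)
    · exact hα A
    · exact sat_theory hA β hβ
  have h2 := sound A h1 h Fin.elim0 trivial
  rw [sat_alls] at h2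
  exact h2 v hv

end Pool.Agent.V11250.GenMod
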