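import Pool.Agent.V11250.GenMod.Def

namespace Pool.Agent.V11250.GenMod

variable {S : Sig}

theorem Tm.sub_var {n : ℕ} (t : Tm S n) : t.sub (fun i => .var i) = t := by
  induction t with
  | var i => rfl
  | app f a ih => simp only [Tm.sub]; congr; funext i; exact ih i

theorem Tm.sub_sub {n m k : ℕ} (σ : Fin n → Tm S m) (τ : Fin m → Tm S k) (t : Tm S n) :
    (t.sub σ).sub τ = t.sub fun i => (σ i).sub τ := by
  induction t with
  | var i => rfl
  | app f a ih => simp only [Tm.sub]; congr; funext i; exact ih i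

theorem up_var {n : ℕ} : up (fun i => (.var i : Tm S n)) = fun i => .var i := by
  funext i
  refine Fin.cases ?_ (fun j => ?_) i
  · rfl
  · rfl

theorem up_up {n m k : ℕ} (σ : Fin n → Tm S m) (τ : Fin m → Tm S k) :
    (fun i => (up σ i).sub (up τ)) = up fun i => (σ i).sub τ := by
  funext i
  refine Fin.cases ?_ (fun j => ?_) i
  · rfl
  · show ((σ j).sub _).sub (up τ) = ((σ j).sub τ).sub _
    rw [Tm.sub_sub, Tm.sub_sub]
    rfl

theorem Fm.sub_var {n : ℕ} (φ : Fm S n) : φ.sub (fun i => .var i) = φ := by
  induction φ with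
  | eq s t => simp only [Fm.sub, Tm.sub_var]
  | top => rfl
  | and φ ψ h1 h2 => simp only [Fm.sub, h1, h2]
  | or I f ih => simp only [Fm.sub]; congr; funext i; exact ih i
  | imp φ ψ h1 h2 => simp only [Fm.sub, h1, h2]
  | all φ ih => simp only [Fm.sub, up_var, ih]
  | ex φ ih => simp only [Fm.sub, up_var, ih]

theorem Fm.sub_sub {n : ℕ} (φ : Fm S n) : ∀ {m k : ℕ} (σ : Fin n → Tm S m) (τ : Fin m → Tm S k),
    (φ.sub σ).sub τ = φ.sub fun i => (σ i).sub τ := by
  induction φ with
  | eq s t => intro m k σ τ; simp only [Fm.sub, Tm.sub_sub]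
  | top => intro m k σ τ; rfl
  | and φ ψ h1 h2 => intro m k σ τ; simp only [Fm.sub, h1, h2]
  | or I f ih => intro m k σ τ; simp only [Fm.sub]; congr; funext i; exact ih i σ τ
  | imp φ ψ h1 h2 => intro m k σ τ; simp only [Fm.sub, h1, h2]
  | all φ ih => intro m k σ τ; simp only [Fm.sub]; rw [ih, up_up]
  | ex φ ih => intro m k σ τ; simp only [Fm.sub]; rw [ih, up_up]

theorem Fm.IsGeo.sub {n : ℕ} {φ : Fm S n} : φ.IsGeo → ∀ {m : ℕ} (σ : Fin n → Tm S m),
    (φ.sub σ).IsGeo := by
  induction φ with
  | eq s t => intro _ m σ; trivial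
  | top => intro _ m σ; trivial
  | and φ ψ h1 h2 => intro h m σ; exact ⟨h1 h.1 σ, h2 h.2 σ⟩
  | or I f ih => intro h m σ i; exact ih i (h i) σ
  | imp φ ψ h1 h2 => intro h; exact h.elim
  | all φ ih => intro h; exact h.elim
  | ex φ ih => intro h m σ; exact ih h _

variable {T : Set (Fm S 0)}

theorem shift_inst {n : ℕ} (φ : Fm S n) (t : Tm S n) : φ.shift.inst t = φ := by
  unfold Fm.shift Fm.inst
  rw [Fm.sub_sub]
  exact Fm.sub_var φ

theorem tm_shift_inst {n : ℕ} (s t : Tm S n) :
    (s.sub fun i => .var i.succ).sub (Fin.cases t fun i => .var i) = s := by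
  rw [Tm.sub_sub]
  exact Tm.sub_var s

theorem up_inst {n m : ℕ} (φ : Fm S (n + 1)) (σ : Fin n → Tm S m) (t : Tm S m) :
    (φ.sub (up σ)).inst t = φ.sub (Fin.cases t σ) := by
  unfold Fm.inst
  rw [Fm.sub_sub]
  congr 1
  funext i
  refine Fin.cases ?_ (fun j => ?_) i
  · rfl
  · show ((σ j).sub _).sub _ = σ j
    exact tm_shift_inst _ _

theorem exIntro {n : ℕ} {γ : Fm S n} {φ : Fm S (n + 1)} (t : Tm S n) (h : Seq T n γ (φ.inst t)) :
    Seq T n γ (.ex φ) := by
  have h1 : Seq T (n + 1) φ (Fm.ex φ).shift := .exI (.id _)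
  have h2 := Seq.sub (Fin.cases t fun i => .var i) h1
  have h3 : (Fm.ex φ).shift.sub (Fin.cases t fun i => .var i) = .ex φ := shift_inst _ t
  rw [h3] at h2
  exact .cut h h2

theorem leibniz {n : ℕ} {γ : Fm S n} {s t : Tm S n} (φ : Fm S (n + 1))
    (h : Seq T n γ (.eq s t)) (h' : Seq T n γ (φ.inst s)) : Seq T n γ (φ.inst t) :=
  .cut (.andI h h') (.leib s t φ)

theorem eqRefl {n : ℕ} (γ : Fm S n) (t : Tm S n) : Seq T n γ (.eq t t) :=
  .cut (.topI _) (.refl t)

theorem eqSymm {n : ℕ} {γ : Fm S n} {s t : Tm S n} (h : Seq T n γ (.eq s t)) :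
    Seq T n γ (.eq t s) := by
  have h1 := leibniz (γ := γ) (.eq (.var 0) (s.sub fun i => .var i.succ)) h (by
    show Seq T n γ (.eq s _)
    rw [tm_shift_inst]; exact eqRefl γ s)
  have h2 : (Fm.eq (.var 0) (s.sub fun i => .var i.succ)).inst t = .eq t s := by
    show Fm.eq t _ = _
    rw [tm_shift_inst]
  rwa [h2] at h1

theorem eqTrans {n : ℕ} {γ : Fm S n} {s t u : Tm S n} (h : Seq T n γ (.eq s t))
    (h' : Seq T n γ (.eq t u)) : Seq T n γ (.eq s u) := by
  have h1 := leibniz (γ := γ) (.eq (s.sub fun i => .var i.succ) (.var 0)) h' (by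
    show Seq T n γ (.eq _ t)
    rw [tm_shift_inst]; exact h)
  have h2 : (Fm.eq (s.sub fun i => .var i.succ) (.var 0)).inst u = .eq s u := by
    show Fm.eq _ u = _
    rw [tm_shift_inst]
  rwa [h2] at h1

theorem eqCong {n : ℕ} {γ : Fm S n} (f : S.F) (s t : Fin (S.ar f) → Tm S n)
    (h : ∀ i, Seq T n γ (.eq (s i) (t i))) : Seq T n γ (.eq (.app f s) (.app f t)) := by
  classical
  have key : ∀ k : ℕ, k ≤ S.ar f → Seq T n γ (.eq (.app f s)
      (.app f fun i => if i.1 < k then t i else s i)) := by
    intro k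
    induction k with
    | zero => intro _; simpa using eqRefl γ (.app f s)
    | succ k ih =>
      intro hk
      have ih' := ih (by omega)
      let j : Fin (S.ar f) := ⟨k, by omega⟩
      let φ : Fm S (n + 1) := .eq ((Tm.app f s).sub fun i => .var i.succ)
        (.app f fun i => if i = j then .var 0 else
          ((if i.1 < k then t i else s i).sub fun i => .var i.succ))
      have e1 : ∀ u : Tm S n, φ.inst u = .eq (.app f s)
          (.app f fun i => if i = j then u else (if i.1 < k then t i else s i)) := by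
        intro u
        show Fm.eq _ _ = _
        rw [tm_shift_inst]
        congr 1
        show Tm.app f _ = _
        congr 1
        funext i
        by_cases hij : i = j
        · simp only [if_pos hij]; rfl
        · simp only [if_neg hij]
          exact tm_shift_inst _ _
      have h1 := leibniz φ (h j) (by
        rw [e1]
        have : (fun i => if i = j then s j else (if i.1 < k then t i else s i)) =
            fun i : Fin (S.ar f) => if i.1 < k then t i else s i := by
          funext i
          by_cases hij : i = j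
          · subst hij; simp [j]
          · simp [hij]
        rw [this]; exact ih')
      rw [e1] at h1
      have : (fun i => if i = j then t j else (if i.1 < k then t i else s i)) =
          fun i : Fin (S.ar f) => if i.1 < k + 1 then t i else s i := by
        funext i
        by_cases hij : i = j
        · subst hij; simp [j]
        · have : i.1 ≠ k := fun h => hij (Fin.ext h)
          simp only [if_neg hij]
          by_cases h2 : i.1 < k
          · simp [h2, Nat.lt_succ_of_lt h2]
          · have h3 : ¬ i.1 < k + 1 := by omega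
            simp [h2, h3]
      rwa [this] at h1
  have := key (S.ar f) le_rfl
  have e : (fun i : Fin (S.ar f) => if i.1 < S.ar f then t i else s i) = t := by
    funext i; simp [i.2]
  rwa [e] at this

theorem allsIntro {n : ℕ} {φ : Fm S n} (h : Seq T n .top φ) : Prov T (alls n φ) := by
  induction n with
  | zero => exact h
  | succ n ih => exact ih (.allI h)

theorem allsElim {n : ℕ} {φ : Fm S n} (h : Prov T (alls n φ)) : Seq T n .top φ := by
  induction n with
  | zero => exact h
  | succ n ih => exact .allE (ih h)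

end Pool.Agent.V11250.GenMod
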